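import Mathlib

/-!
# Sum graphs and the sum number: definitions, and the graph of the reduction
-/

set_option autoImplicit false

namespace Pool.Agent.H78.SN

open Finset

/-- `H` is a sum graph: there is an injective labelling of the vertices by positive integers such
that two distinct vertices are adjacent iff the sum of their labels is a label. -/
def IsSumGraph {V : Type*} (H : SimpleGraph V) : Prop :=
  ∃ l : V → ℕ, Function.Injective l ∧ (∀ v, 0 < l v) ∧
    ∀ u v, u ≠ v → (H.Adj u v ↔ ∃ w, l u + l v = l w)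

/-- The disjoint union of `G` and `s` isolated vertices. -/
def addIsolated {V : Type*} (G : SimpleGraph V) (s : ℕ) : SimpleGraph (V ⊕ Fin s) :=
  G ⊕g (⊥ : SimpleGraph (Fin s))

/-- The sum number of `G`: the least `s` such that `G` together with `s` isolated vertices is a
sum graph. -/
noncomputable def sumNumber {V : Type*} (G : SimpleGraph V) : ℕ :=
  sInf {s | IsSumGraph (addIsolated G s)}

/-- `G` has an injective integer labelling and a set `C` of at most `s` integers such that two
distinct vertices are adjacent iff the sum of their labels is in `C`. -/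
def ExLab {V : Type*} (G : SimpleGraph V) (s : ℕ) : Prop :=
  ∃ (f : V → ℤ) (C : Finset ℤ), Function.Injective f ∧ C.card ≤ s ∧
    ∀ u v, u ≠ v → (G.Adj u v ↔ f u + f v ∈ C)

/-- The set of sums of two distinct elements of `A`. -/
def rsum (A : Finset ℤ) : Finset ℤ := A.offDiag.image fun p => p.1 + p.2

theorem mem_rsum {A : Finset ℤ} {x : ℤ} : x ∈ rsum A ↔ ∃ a ∈ A, ∃ b ∈ A, a ≠ b ∧ a + b = x := by
  simp only [rsum, mem_image, mem_offDiag, Prod.exists]
  constructor
  · rintro ⟨a, b, ⟨ha, hb, hab⟩, rfl⟩; exact ⟨a, ha, b, hb, hab, rfl⟩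
  · rintro ⟨a, ha, b, hb, hab, rfl⟩; exact ⟨a, b, ⟨ha, hb, hab⟩, rfl⟩

/-! ## The graph of the reduction -/

/-- Names of vertices: `p i j` is the `j`-th vertex of the `i`-th path, `b j` a blank,
`q i j` stands for the `j`-th edge of the `i`-th path, `w` is the control vertex, `u j` are the
universal vertices. -/
inductive Vx where
  | p (i j : ℕ)
  | b (j : ℕ)
  | q (i j : ℕ)
  | w
  | u (j : ℕ)
  deriving DecidableEq

/-- The vertices for `r` paths of lengths `L i`, `nb` blanks and `M` universal vertices. -/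
def Vx.ok (r : ℕ) (L : ℕ → ℕ) (nb M : ℕ) : Vx → Prop
  | .p i j => i < r ∧ j < L i
  | .b j => j < nb
  | .q i j => i < r ∧ j + 1 < L i
  | .w => True
  | .u j => j < M

/-- The adjacency pattern. -/
def Vx.adj (t : ℕ) : Vx → Vx → Prop
  | .u _, _ => True
  | _, .u _ => True
  | .q _ _, .q _ _ => True
  | .q _ _, .w => True
  | .w, .q _ _ => True
  | .w, .w => True
  | .w, .b j => j < t
  | .b j, .w => j < t
  | .q i j, .p i' j' => i' = i ∧ (j' = j ∨ j' = j + 1)
  | .p i' j', .q i j => i' = i ∧ (j' = j ∨ j' = j + 1)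
  | .p _ _, .p _ _ => False
  | .p _ _, .b _ => False
  | .b _, .p _ _ => False
  | .b _, .b _ => False
  | .p _ _, .w => False
  | .w, .p _ _ => False
  | .b _, .q _ _ => False
  | .q _ _, .b _ => False

theorem Vx.adj_symm (t : ℕ) (x y : Vx) : x.adj t y ↔ y.adj t x := by
  cases x <;> cases y <;> simp [Vx.adj]

/-- The finite set of vertices. -/
def vset (r : ℕ) (L : ℕ → ℕ) (nb M : ℕ) : Finset Vx :=
  ((range r).biUnion fun i => (range (L i)).image (Vx.p i)) ∪ (range nb).image Vx.b ∪
    ((range r).biUnion fun i => (range (L i - 1)).image (Vx.q i)) ∪ {Vx.w} ∪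
      (range M).image Vx.u

theorem mem_vset {r : ℕ} {L : ℕ → ℕ} {nb M : ℕ} {x : Vx} :
    x ∈ vset r L nb M ↔ x.ok r L nb M := by
  cases x <;> simp [vset, Vx.ok] <;> omega

/-- The graph of the reduction. -/
def gr (r : ℕ) (L : ℕ → ℕ) (nb t M : ℕ) : SimpleGraph {x // x ∈ vset r L nb M} where
  Adj x y := x ≠ y ∧ x.1.adj t y.1
  symm := ⟨fun x y h => ⟨h.1.symm, (Vx.adj_symm t x.1 y.1).1 h.2⟩⟩
  loopless := ⟨fun _ h => h.1 rfl⟩

/-! ## Exact bin packing -/

/-- An instance of exact bin packing: the list of the sizes of the items, the number `D` of bins,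
the capacity `B`. Yes: the items can be put into the bins so that every bin is exactly full. -/
def EBP (x : List ℕ × ℕ × ℕ) : Prop :=
  ∃ τ : ℕ → ℕ, (∀ i < x.1.length, τ i < x.2.1) ∧
    ∀ b < x.2.1, ∑ i ∈ (range x.1.length).filter (fun i => τ i = b), x.1.getD i 0 = x.2.2

/-- The promise for instances of exact bin packing. -/
def EBPGood (x : List ℕ × ℕ × ℕ) : Prop :=
  (∀ a ∈ x.1, 1 ≤ a) ∧ x.1.sum = x.2.1 * x.2.2 ∧ x.2.2 ∈ x.1 ∧ x.2.1 ≤ x.1.length ∧
    2 * (x.2.2 + 1) * (x.1.length - x.2.1 + 8) ≤ x.2.1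

end Pool.Agent.H78.SN
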